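import Pool.Agent.Q146.BT.Dense

open Finset

namespace Q146.BT

section
variable {V : Type} [Fintype V] (p : V → V → ℝ)

lemma D_nonneg (x y : V) : 0 ≤ D p x y :=
  div_nonneg (Finset.sum_nonneg (fun _ _ => abs_nonneg _)) (Nat.cast_nonneg _)

lemma D_self (x : V) : D p x x = 0 := by simp [D]

lemma D_symm (x y : V) : D p x y = D p y x := by
  unfold D
  congr 1
  exact Finset.sum_congr rfl (fun z _ => abs_sub_comm _ _)

lemma D_tri (x y z : V) : D p x z ≤ D p x y + D p y z := by
  unfold D
  rw [← add_div, ← Finset.sum_add_distrib]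
  apply div_le_div_of_nonneg_right _ (Nat.cast_nonneg _)
  exact Finset.sum_le_sum (fun w _ => abs_sub_le _ _ _)

open Classical in
lemma structure_lemma [Nonempty V] (η δ κ : ℝ) (hη : 0 < η) (hδ : 0 < δ) (hκ : κ < 1)
    (hD : ((univ.filter (fun x => ((univ.filter (fun y => D p x y ≤ η)).card : ℝ) <
      δ * Fintype.card V)).card : ℝ) ≤ κ * Fintype.card V) :
    ∃ (X : Finset V) (cl : V → V), (∀ x, cl x ∈ X) ∧ (X.card : ℝ) * δ ≤ 1 ∧
      ((univ.filter (fun x => ¬ D p x (cl x) ≤ 2 * η)).card : ℝ) ≤ κ * Fintype.card V ∧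
      ∀ i ∈ X, δ * Fintype.card V ≤
        (((univ.filter (fun x => D p x (cl x) ≤ 2 * η)).filter (fun x => cl x = i)).card : ℝ) := by
  set n : ℝ := (Fintype.card V : ℝ) with hn
  have hn0 : 0 < n := by rw [hn]; exact_mod_cast Fintype.card_pos
  set B : V → Finset V := fun x => univ.filter (fun y => D p x y ≤ η) with hB
  set A : Finset V := univ.filter (fun x => δ * n ≤ ((B x).card : ℝ)) with hA
  set P : Finset V → Prop := fun S => S ⊆ A ∧ ∀ x ∈ S, ∀ y ∈ S, x ≠ y → 2 * η < D p x y with hP
  obtain ⟨X, hXP, hXmax⟩ := Finset.exists_max_image (univ.filter P) Finset.card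
    ⟨∅, by simp [hP]⟩
  simp only [Finset.mem_filter, Finset.mem_univ, true_and] at hXP hXmax
  have hcov : ∀ x ∈ A, ∃ i ∈ X, D p x i ≤ 2 * η := by
    intro x hx
    by_contra hc
    push Not at hc
    have hxX : x ∉ X := by
      intro h
      have := hc x h
      rw [D_self] at this
      linarith
    have := hXmax (insert x X) ⟨Finset.insert_subset hx hXP.1, by
      intro u hu v hv huv
      rw [Finset.mem_insert] at hu hv
      rcases hu with rfl | hu
      · rcases hv with rfl | hv
        · exact absurd rfl huv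
        · exact hc v hv
      · rcases hv with rfl | hv
        · rw [D_symm]; exact hc u hu
        · exact hXP.2 u hu v hv huv⟩
    rw [Finset.card_insert_of_notMem hxX] at this
    omega
  have hWA : ∀ x, x ∉ A → x ∈ univ.filter (fun x => ((univ.filter
      (fun y => D p x y ≤ η)).card : ℝ) < δ * n) := by
    intro x hx
    simp only [hA, Finset.mem_filter, Finset.mem_univ, true_and, not_le] at hx
    simpa using hx
  have hAne : A.Nonempty := by
    by_contra hc
    rw [Finset.not_nonempty_iff_eq_empty] at hc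
    have h1 : (univ : Finset V) ⊆ univ.filter (fun x => ((univ.filter
      (fun y => D p x y ≤ η)).card : ℝ) < δ * n) := fun x _ => hWA x (by rw [hc]; simp)
    have h2 := Finset.card_le_card h1
    have h3 : n ≤ κ * n := by
      refine le_trans ?_ hD
      rw [hn, ← Finset.card_univ]
      exact_mod_cast h2
    nlinarith
  obtain ⟨x1, hx1⟩ := hAne
  obtain ⟨x0, hx0, -⟩ := hcov x1 hx1
  -- uniqueness of the near centre
  have huniq : ∀ x, ∀ i ∈ X, ∀ j ∈ X, D p i x ≤ η → D p j x ≤ η → i = j := by
    intro x i hi j hj h1 h2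
    by_contra hij
    have h3 := hXP.2 i hi j hj hij
    have h4 := D_tri p i x j
    rw [D_symm p x j] at h4
    linarith
  have hcl : ∀ x, ∃ i ∈ X, (∀ j ∈ X, D p j x ≤ η → i = j) ∧ (x ∈ A → D p x i ≤ 2 * η) := by
    intro x
    by_cases h1 : ∃ i ∈ X, D p i x ≤ η
    · obtain ⟨i, hi, hix⟩ := h1
      refine ⟨i, hi, fun j hj hjx => huniq x i hi j hj hix hjx, fun _ => ?_⟩
      rw [D_symm]
      linarith
    · push Not at h1
      by_cases h2 : x ∈ A
      · obtain ⟨i, hi, hxi⟩ := hcov x h2
        exact ⟨i, hi, fun j hj hjx => absurd hjx (not_le.2 (h1 j hj)), fun _ => hxi⟩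
      · exact ⟨x0, hx0, fun j hj hjx => absurd hjx (not_le.2 (h1 j hj)), fun h => absurd h h2⟩
  choose cl hcl1 hcl2 hcl3 using hcl
  refine ⟨X, cl, hcl1, ?_, ?_, ?_⟩
  · -- disjoint balls
    have hdisj : (X : Set V).PairwiseDisjoint B := by
      intro i hi j hj hij
      rw [Function.onFun, Finset.disjoint_left]
      intro x hx1 hx2
      simp only [hB, Finset.mem_filter, Finset.mem_univ, true_and] at hx1 hx2
      exact hij (huniq x i hi j hj hx1 hx2)
    have h1 : ∑ i ∈ X, (B i).card ≤ Fintype.card V := by
      rw [← Finset.card_biUnion hdisj, ← Finset.card_univ]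
      exact Finset.card_le_card (Finset.subset_univ _)
    have h2 : (X.card : ℝ) * (δ * n) ≤ n := by
      calc (X.card : ℝ) * (δ * n) = ∑ i ∈ X, δ * n := by
            rw [Finset.sum_const, nsmul_eq_mul]
        _ ≤ ∑ i ∈ X, ((B i).card : ℝ) := by
            apply Finset.sum_le_sum
            intro i hi
            have := hXP.1 hi
            simp only [hA, Finset.mem_filter, Finset.mem_univ, true_and] at this
            exact this
        _ ≤ n := by
            rw [hn]
            exact_mod_cast h1
    have h3 : ((X.card : ℝ) * δ) * n ≤ 1 * n := by linarith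
    exact le_of_mul_le_mul_right h3 hn0
  · refine le_trans ?_ hD
    have : (univ.filter (fun x => ¬ D p x (cl x) ≤ 2 * η)) ⊆ univ.filter (fun x => ((univ.filter
      (fun y => D p x y ≤ η)).card : ℝ) < δ * n) := by
      intro x hx
      simp only [Finset.mem_filter, Finset.mem_univ, true_and] at hx
      apply hWA
      intro h
      exact hx (hcl3 x h)
    exact_mod_cast Finset.card_le_card this
  · intro i hi
    have hiA := hXP.1 hi
    simp only [hA, Finset.mem_filter, Finset.mem_univ, true_and] at hiA
    refine hiA.trans ?_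
    have : B i ⊆ (univ.filter (fun x => D p x (cl x) ≤ 2 * η)).filter (fun x => cl x = i) := by
      intro x hx
      simp only [hB, Finset.mem_filter, Finset.mem_univ, true_and] at hx ⊢
      have h1 : cl x = i := hcl2 x i hi hx
      refine ⟨?_, h1⟩
      rw [h1, D_symm]
      linarith
    exact_mod_cast Finset.card_le_card this

open Classical in
lemma avg_lemma (G : Finset V) (cl : V → V) (f : V → ℝ) :
    ∑ x ∈ G, (∑ u ∈ G.filter (fun u => cl u = cl x), f u) /
      ((G.filter (fun u => cl u = cl x)).card : ℝ) = ∑ u ∈ G, f u := by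
  have h1 : ∀ x ∈ G, (∑ u ∈ G.filter (fun u => cl u = cl x), f u) /
      ((G.filter (fun u => cl u = cl x)).card : ℝ) =
      ∑ u ∈ G, (if cl u = cl x then f u / ((G.filter (fun v => cl v = cl u)).card : ℝ) else 0) := by
    intro x _
    rw [Finset.sum_div, Finset.sum_filter]
    apply Finset.sum_congr rfl
    intro u _
    by_cases h : cl u = cl x
    · simp only [h, if_true]
    · simp [h]
  rw [Finset.sum_congr rfl h1, Finset.sum_comm]
  apply Finset.sum_congr rfl
  intro u hu
  have h2 : ∑ x ∈ G, (if cl u = cl x then f u / ((G.filter (fun v => cl v = cl u)).card : ℝ)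
      else 0) = ((G.filter (fun v => cl v = cl u)).card : ℝ) *
        (f u / ((G.filter (fun v => cl v = cl u)).card : ℝ)) := by
    rw [← Finset.sum_filter, Finset.sum_const, nsmul_eq_mul]
    congr 3
    ext x
    simp only [Finset.mem_filter]
    exact and_congr_right (fun _ => eq_comm)
  rw [h2]
  have h3 : ((G.filter (fun v => cl v = cl u)).card : ℝ) ≠ 0 := by
    have : 0 < (G.filter (fun v => cl v = cl u)).card :=
      Finset.card_pos.2 ⟨u, by simp [hu]⟩
    exact_mod_cast this.ne'
  field_simp

end

end Q146.BT
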