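import Pool.Agent.Q146.BT.Fit2

open Finset

namespace Q146.BT

open Classical in
lemma amplify (d q B : ℕ) {V : Type} [Fintype V] (p : V → V → ℝ) :
    (univ.filter (fun s : Fin (B * q) → V => Rz d p s)).card ≤
      (univ.filter (fun s : Fin q → V => Rz d p s)).card ^ B := by
  set R := univ.filter (fun s : Fin q → V => Rz d p s) with hR
  have h1 : (Fintype.piFinset (fun _ : Fin B => R)).card = R.card ^ B := by
    rw [Fintype.card_piFinset]
    simp
  rw [← h1]
  apply Finset.card_le_card_of_injOn (fun s b i => s (finProdFinEquiv (b, i)))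
  · intro s hs
    simp only [Finset.coe_filter, Finset.mem_univ, true_and, Set.mem_setOf_eq] at hs
    simp only [Finset.mem_coe, Fintype.mem_piFinset]
    intro b
    simp only [hR, Finset.mem_filter, Finset.mem_univ, true_and]
    exact hs.comp (fun i => finProdFinEquiv (b, i))
  · intro s _ s' _ h
    funext j
    have := congrFun (congrFun h (finProdFinEquiv.symm j).1) (finProdFinEquiv.symm j).2
    simp only [Prod.mk.eta, Equiv.apply_symm_apply] at this
    exact this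

open Classical in
/-- if a large random tuple is realised with probability above `1/3`, then the whole matrix is
close to a matrix of dimension `d` -/
theorem core (d : ℕ) (hd : 0 < d) (ε : ℝ) (hε : 0 < ε) :
    ∃ q : ℕ, ∀ (V : Type) [Fintype V] [Nonempty V] (p : V → V → ℝ), (∀ x y, 0 ≤ p x y) →
      (∀ x y, p x y ≤ 1) → (∀ x y, p x y + p y x = 1) →
      (1 / 3 : ℝ) * (Fintype.card V : ℝ) ^ q <
        ((univ.filter (fun s : Fin q → V => Rz d p s)).card : ℝ) →
      ∃ a : V → Fin d → ℝ, (∀ x c, 0 < a x c) ∧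
        ∑ x, ∑ y, |p x y - F d (a x) (a y)| ≤ ε * (Fintype.card V : ℝ) ^ 2 := by
  set k : ℕ := ⌈64 / ε⌉₊ + 1 with hk
  have hk0 : 0 < k := by omega
  have hkR : (0:ℝ) < k := by exact_mod_cast hk0
  have hk1 : 32 / (k:ℝ) ≤ ε / 2 := by
    rw [div_le_iff₀ hkR]
    have h1 : 64 / ε ≤ k := by
      have := Nat.le_ceil (64 / ε)
      rw [hk]
      push_cast
      linarith
    rw [div_le_iff₀ hε] at h1
    linarith
  set κ : ℝ := min (1 / 2) (ε / 4) with hκ
  have hκ0 : 0 < κ := lt_min (by norm_num) (by positivity)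
  have hκ1 : κ < 1 := lt_of_le_of_lt (min_le_left _ _) (by norm_num)
  have hκ2 : 2 * κ ≤ ε / 2 := by
    have : κ ≤ ε / 4 := min_le_right _ _
    linarith
  set N : ℕ := k ^ d + 1 with hN
  have hN0 : (0:ℝ) < N := by
    have : 0 < N := by omega
    exact_mod_cast this
  have hκN : 0 < κ ^ N := pow_pos hκ0 _
  set δ : ℝ := κ ^ N / (3 * (N:ℝ) ^ 2) with hδ
  have hδ0 : 0 < δ := by positivity
  have hδ1 : (N:ℝ) ^ 2 * δ = κ ^ N / 3 := by
    rw [hδ]; field_simp
  set m : ℕ := ⌈3 * (N:ℝ) ^ 2 * (k:ℝ) ^ 2 / κ ^ N⌉₊ + 1 with hm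
  have hm0 : 0 < m := by omega
  have hmR : (0:ℝ) < m := by exact_mod_cast hm0
  have hm1 : (N:ℝ) ^ 2 * ((k:ℝ) ^ 2 / m) ≤ κ ^ N / 3 := by
    have h1 : 3 * (N:ℝ) ^ 2 * (k:ℝ) ^ 2 / κ ^ N ≤ m := by
      have := Nat.le_ceil (3 * (N:ℝ) ^ 2 * (k:ℝ) ^ 2 / κ ^ N)
      rw [hm]
      push_cast
      linarith
    rw [div_le_iff₀ hκN] at h1
    rw [← mul_div_assoc, div_le_iff₀ hmR]
    linarith
  set q1 : ℕ := max (N + m) ⌈1 / δ⌉₊ with hq1
  have hq1a : N + m ≤ q1 := le_max_left _ _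
  have hq1b : 1 / δ ≤ q1 := (Nat.le_ceil _).trans (by exact_mod_cast le_max_right _ _)
  set τ : ℝ := min (κ ^ N / 3) (min (δ ^ q1 / 4) (1 / 2)) with hτ
  have hτ0 : 0 < τ := lt_min (by positivity) (lt_min (by positivity) (by norm_num))
  have hτ1 : τ ≤ κ ^ N / 3 := min_le_left _ _
  have hτ2 : τ ≤ δ ^ q1 / 4 := (min_le_right _ _).trans (min_le_left _ _)
  have hτ3 : τ ≤ 1 / 2 := (min_le_right _ _).trans (min_le_right _ _)
  obtain ⟨B, hB⟩ := exists_pow_lt_of_lt_one (show (0:ℝ) < 1 / 3 by norm_num)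
    (show 1 - τ < 1 by linarith)
  refine ⟨B * q1, ?_⟩
  intro V _ _ p hp0 hp1 hadd hacc
  set n : ℝ := (Fintype.card V : ℝ) with hn
  have hn0 : 0 < n := by rw [hn]; exact_mod_cast Fintype.card_pos
  have hamp := amplify d q1 B p
  set c := (univ.filter (fun s : Fin q1 → V => Rz d p s)).card with hc
  have h1 : (1 / 3 : ℝ) * n ^ (B * q1) < (c:ℝ) ^ B :=
    lt_of_lt_of_le hacc (by exact_mod_cast hamp)
  have h2 : (1 - τ) * n ^ q1 < c := by
    by_contra hcon
    rw [not_lt] at hcon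
    have h3 : (c:ℝ) ^ B ≤ ((1 - τ) * n ^ q1) ^ B := pow_le_pow_left₀ (Nat.cast_nonneg _) hcon _
    rw [mul_pow, ← pow_mul, mul_comm q1 B] at h3
    have h4 : (1 - τ) ^ B * n ^ (B * q1) ≤ 1 / 3 * n ^ (B * q1) :=
      mul_le_mul_of_nonneg_right hB.le (by positivity)
    linarith
  have hrare : Rare d p (Fin q1) τ := by
    unfold Rare
    rw [Fintype.card_fin, ← hn]
    have h3 := Finset.card_filter_add_card_filter_not (s := (univ : Finset (Fin q1 → V)))
      (fun s => Rz d p s)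
    rw [Finset.card_univ, Fintype.card_fun, Fintype.card_fin] at h3
    have h4 : (c:ℝ) + ((univ.filter (fun s : Fin q1 → V => ¬ Rz d p s)).card : ℝ) = n ^ q1 := by
      rw [hn, hc]
      exact_mod_cast h3
    linarith
  have hD := dense d k N m hd hk0 hm0 (by omega) δ κ τ hκ0.le (by linarith) p hp0 hp1
    (hrare.sub (Fin N ⊕ Fin m) (by simpa using hq1a))
  obtain ⟨a, ha, hfit⟩ := fit d k q1 hd hk0 δ κ τ hδ0 hκ0.le hκ1 hq1b hτ2 p hp0 hp1 hadd hD hrare
  refine ⟨a, ha, hfit.trans ?_⟩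
  apply mul_le_mul_of_nonneg_right _ (by positivity)
  linarith

end Q146.BT
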