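import Pool.Agent.Q146.BT.Rows

open Finset

namespace Q146.BT

/-- the normalised `L¹` distance of two rows -/
noncomputable def D {V : Type} [Fintype V] (p : V → V → ℝ) (x y : V) : ℝ :=
  (∑ z, |p x z - p y z|) / Fintype.card V

open Classical in
/-- the tuples which are not realised are rare -/
def Rare (d : ℕ) {V : Type} [Fintype V] (p : V → V → ℝ) (ι : Type) [Fintype ι] [DecidableEq ι]
    (τ : ℝ) : Prop :=
  ((univ.filter (fun s : ι → V => ¬ Rz d p s)).card : ℝ) ≤
    τ * (Fintype.card V : ℝ) ^ Fintype.card ι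

lemma Rare.sub {d : ℕ} {V : Type} [Fintype V] [Nonempty V] {p : V → V → ℝ} {q : ℕ} {τ : ℝ}
    (h : Rare d p (Fin q) τ) (κ : Type) [Fintype κ] [DecidableEq κ] (hκ : Fintype.card κ ≤ q) :
    Rare d p κ τ := by
  classical
  have hn : (0:ℝ) < Fintype.card V := by exact_mod_cast Fintype.card_pos
  have e : κ ⊕ Fin (q - Fintype.card κ) ≃ Fin q := by
    apply Fintype.equivOfCardEq
    rw [Fintype.card_sum, Fintype.card_fin, Fintype.card_fin]
    omega
  unfold Rare at h ⊢
  rw [Fintype.card_fin] at h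
  have hinj : ((univ.filter (fun s : κ → V => ¬ Rz d p s)) ×ˢ
      (univ : Finset (Fin (q - Fintype.card κ) → V))).card ≤
      (univ.filter (fun s : Fin q → V => ¬ Rz d p s)).card := by
    apply Finset.card_le_card_of_injOn (fun st => Sum.elim st.1 st.2 ∘ e.symm)
    · rintro ⟨s, t⟩ hst
      simp only [Finset.coe_product, Finset.coe_filter, Finset.mem_univ, true_and, Finset.coe_univ,
        Set.mem_prod, Set.mem_univ, and_true, Set.mem_setOf_eq] at hst ⊢
      intro hR
      apply hst
      have := hR.comp (e ∘ Sum.inl)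
      convert this using 1
      funext i
      simp
    · rintro ⟨s, t⟩ _ ⟨s', t'⟩ _ hst
      have h1 : Sum.elim s t = Sum.elim s' t' := by
        have := congrArg (fun f => f ∘ e) hst
        simp only [Function.comp_assoc, Equiv.symm_comp_self, Function.comp_id] at this
        exact this
      have h2 : s = s' := by
        funext i
        exact congrFun h1 (Sum.inl i)
      have h3 : t = t' := by
        funext i
        exact congrFun h1 (Sum.inr i)
      rw [h2, h3]
  rw [Finset.card_product, Finset.card_univ, Fintype.card_fun, Fintype.card_fin] at hinj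
  have h1 : ((univ.filter (fun s : κ → V => ¬ Rz d p s)).card : ℝ) *
      (Fintype.card V : ℝ) ^ (q - Fintype.card κ) ≤
      (univ.filter (fun s : Fin q → V => ¬ Rz d p s)).card := by exact_mod_cast hinj
  have h2 := h1.trans h
  have h3 : (Fintype.card V : ℝ) ^ q = (Fintype.card V : ℝ) ^ Fintype.card κ *
      (Fintype.card V : ℝ) ^ (q - Fintype.card κ) := by
    rw [← pow_add]
    congr 1
    omega
  rw [h3, ← mul_assoc] at h2
  exact le_of_mul_le_mul_right h2 (by positivity)

open Classical in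
/-- all but few rows have many rows nearby -/
lemma dense (d k N m : ℕ) (hd : 0 < d) (hk : 0 < k) (hm : 0 < m) (hN : k ^ d < N)
    (δ κ τ : ℝ) (hκ : 0 ≤ κ)
    (hpar : (N:ℝ) ^ 2 * δ + (N:ℝ) ^ 2 * ((k:ℝ) ^ 2 / m) + τ ≤ κ ^ N) {V : Type} [Fintype V]
    [Nonempty V] (p : V → V → ℝ) (hp0 : ∀ x y, 0 ≤ p x y) (hp1 : ∀ x y, p x y ≤ 1)
    (hR : Rare d p (Fin N ⊕ Fin m) τ) :
    ((univ.filter (fun x => ((univ.filter (fun y => D p x y ≤ 2 / k)).card : ℝ) <
      δ * Fintype.card V)).card : ℝ) ≤ κ * Fintype.card V := by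
  set n : ℝ := (Fintype.card V : ℝ) with hn
  have hn0 : 0 < n := by rw [hn]; exact_mod_cast Fintype.card_pos
  set W := univ.filter (fun x => ((univ.filter (fun y => D p x y ≤ 2 / k)).card : ℝ) < δ * n)
    with hW
  by_contra hc
  rw [not_le] at hc
  have hk0 : (0:ℝ) < k := by exact_mod_cast hk
  have hm0 : (0:ℝ) < m := by exact_mod_cast hm
  have hNpos : 0 < N := by omega
  set dev : (Fin N → V) → (Fin m → V) → Fin N → Fin N → Prop := fun T Z i j =>
    1 / (k:ℝ) ≤ |(∑ l, |p (T i) (Z l) - p (T j) (Z l)|) / m - D p (T i) (T j)| with hdev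
  have hpt : ∀ (T : Fin N → V) (Z : Fin m → V), (if ∀ i, T i ∈ W then (1:ℝ) else 0) ≤
      (∑ i, ∑ j, (if i ≠ j ∧ T i ∈ W ∧ D p (T i) (T j) ≤ 2 / k then (1:ℝ) else 0)) +
      (∑ i, ∑ j, (if dev T Z i j then (1:ℝ) else 0)) +
      (if ¬ Rz d p (Sum.elim T Z) then (1:ℝ) else 0) := by
    intro T Z
    have p1 : 0 ≤ ∑ i, ∑ j, (if i ≠ j ∧ T i ∈ W ∧ D p (T i) (T j) ≤ 2 / k then (1:ℝ) else 0) :=
      Finset.sum_nonneg (fun i _ => Finset.sum_nonneg (fun j _ => by split_ifs <;> norm_num))
    have p2 : 0 ≤ ∑ i, ∑ j, (if dev T Z i j then (1:ℝ) else 0) :=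
      Finset.sum_nonneg (fun i _ => Finset.sum_nonneg (fun j _ => by split_ifs <;> norm_num))
    have p3 : 0 ≤ (if ¬ Rz d p (Sum.elim T Z) then (1:ℝ) else 0) := by split_ifs <;> norm_num
    by_cases hG : ∀ i, T i ∈ W
    · rw [if_pos hG]
      by_cases hz : Rz d p (Sum.elim T Z)
      · obtain ⟨i, j, hij, hr⟩ := rows d k N m hd hk hm hN p T Z hz
        by_cases hD : D p (T i) (T j) ≤ 2 / k
        · have q1 : (1:ℝ) ≤ ∑ i, ∑ j,
              (if i ≠ j ∧ T i ∈ W ∧ D p (T i) (T j) ≤ 2 / k then (1:ℝ) else 0) := by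
            calc (1:ℝ) = (if i ≠ j ∧ T i ∈ W ∧ D p (T i) (T j) ≤ 2 / k then (1:ℝ) else 0) := by
                  rw [if_pos ⟨hij, hG i, hD⟩]
              _ ≤ ∑ j, (if i ≠ j ∧ T i ∈ W ∧ D p (T i) (T j) ≤ 2 / k then (1:ℝ) else 0) :=
                  Finset.single_le_sum (f := fun j => (if i ≠ j ∧ T i ∈ W ∧ D p (T i) (T j) ≤ 2 / k
                    then (1:ℝ) else 0)) (fun j _ => by split_ifs <;> norm_num) (Finset.mem_univ j)
              _ ≤ _ := Finset.single_le_sum (f := fun i => ∑ j, (if i ≠ j ∧ T i ∈ W ∧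
                    D p (T i) (T j) ≤ 2 / k then (1:ℝ) else 0))
                    (fun i _ => Finset.sum_nonneg (fun j _ => by split_ifs <;> norm_num))
                    (Finset.mem_univ i)
          linarith
        · rw [not_le] at hD
          have hdv : dev T Z i j := by
            simp only [hdev]
            rw [abs_sub_comm]
            refine le_trans ?_ (le_abs_self _)
            have : (2:ℝ) / k = 1 / k + 1 / k := by ring
            linarith
          have q1 : (1:ℝ) ≤ ∑ i, ∑ j, (if dev T Z i j then (1:ℝ) else 0) := by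
            calc (1:ℝ) = (if dev T Z i j then (1:ℝ) else 0) := by rw [if_pos hdv]
              _ ≤ ∑ j, (if dev T Z i j then (1:ℝ) else 0) :=
                  Finset.single_le_sum (f := fun j => (if dev T Z i j then (1:ℝ) else 0))
                    (fun j _ => by split_ifs <;> norm_num) (Finset.mem_univ j)
              _ ≤ _ := Finset.single_le_sum (f := fun i => ∑ j, (if dev T Z i j
                    then (1:ℝ) else 0))
                    (fun i _ => Finset.sum_nonneg (fun j _ => by split_ifs <;> norm_num))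
                    (Finset.mem_univ i)
          linarith
      · rw [if_pos hz]
        linarith
    · rw [if_neg hG]
      linarith
  have hsum := Finset.sum_le_sum (fun (T : Fin N → V) (_ : T ∈ univ) =>
    Finset.sum_le_sum (fun (Z : Fin m → V) (_ : Z ∈ univ) => hpt T Z))
  -- the left-hand side
  have hL : ∑ T : Fin N → V, ∑ Z : Fin m → V, (if ∀ i, T i ∈ W then (1:ℝ) else 0) =
      (W.card : ℝ) ^ N * n ^ m := by
    have e1 : ∑ T : Fin N → V, (if ∀ i, T i ∈ W then (1:ℝ) else 0) = (W.card : ℝ) ^ N := by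
      rw [Finset.sum_boole]
      have e2 : univ.filter (fun T : Fin N → V => ∀ i, T i ∈ W) =
          Fintype.piFinset (fun _ => W) := by
        ext T
        simp [Fintype.mem_piFinset]
      rw [e2, Fintype.card_piFinset]
      simp
    simp_rw [Finset.sum_const, Finset.card_univ, Fintype.card_fun, Fintype.card_fin, nsmul_eq_mul]
    rw [← Finset.mul_sum, e1, mul_comm]
    push_cast
    rfl
  -- the three terms
  have h1 : ∑ T : Fin N → V, ∑ Z : Fin m → V, (∑ i, ∑ j,
      (if i ≠ j ∧ T i ∈ W ∧ D p (T i) (T j) ≤ 2 / k then (1:ℝ) else 0)) ≤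
      (N:ℝ) ^ 2 * δ * (n ^ N * n ^ m) := by
    have e0 : ∀ i j : Fin N, ∑ T : Fin N → V,
        (if i ≠ j ∧ T i ∈ W ∧ D p (T i) (T j) ≤ 2 / k then (1:ℝ) else 0) ≤ δ * n ^ N := by
      intro i j
      have hδ : 0 ≤ δ * n := by
        have hWn : W.Nonempty := by
          rw [← Finset.card_pos]
          have : (0:ℝ) < W.card := lt_of_le_of_lt (by positivity) hc
          exact_mod_cast this
        obtain ⟨x, hx⟩ := hWn
        rw [hW, Finset.mem_filter] at hx
        exact (lt_of_le_of_lt (Nat.cast_nonneg _) hx.2).le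
      have hδ' : 0 ≤ δ := by
        by_contra hneg
        rw [not_le] at hneg
        have : δ * n < 0 := mul_neg_of_neg_of_pos hneg hn0
        linarith
      by_cases hij : i ≠ j
      · have e1 := sum_two_univ (V := V) i j hij
          (fun u v => if u ∈ W ∧ D p u v ≤ 2 / k then (1:ℝ) else 0)
        rw [Fintype.card_fin, ← hn] at e1
        have e2 : ∑ T : Fin N → V,
            (if i ≠ j ∧ T i ∈ W ∧ D p (T i) (T j) ≤ 2 / k then (1:ℝ) else 0) =
            ∑ T : Fin N → V, (if T i ∈ W ∧ D p (T i) (T j) ≤ 2 / k then (1:ℝ) else 0) := by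
          apply Finset.sum_congr rfl
          intro T _
          simp [hij]
        rw [e2]
        have e3 : ∑ u, ∑ v, (if u ∈ W ∧ D p u v ≤ 2 / k then (1:ℝ) else 0) ≤ n * (δ * n) := by
          calc ∑ u, ∑ v, (if u ∈ W ∧ D p u v ≤ 2 / k then (1:ℝ) else 0)
              ≤ ∑ u : V, δ * n := by
                apply Finset.sum_le_sum
                intro u _
                by_cases hu : u ∈ W
                · have hu' := hu
                  rw [hW, Finset.mem_filter] at hu'
                  have e4 : ∑ v, (if u ∈ W ∧ D p u v ≤ 2 / k then (1:ℝ) else 0) =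
                      ((univ.filter (fun y => D p u y ≤ 2 / k)).card : ℝ) := by
                    rw [← Finset.sum_boole]
                    apply Finset.sum_congr rfl
                    intro v _
                    simp [hu]
                  rw [e4]
                  exact hu'.2.le
                · have e4 : ∑ v, (if u ∈ W ∧ D p u v ≤ 2 / k then (1:ℝ) else 0) = 0 := by
                    apply Finset.sum_eq_zero
                    intro v _
                    simp [hu]
                  rw [e4]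
                  exact hδ
            _ = n * (δ * n) := by
                rw [Finset.sum_const, Finset.card_univ, nsmul_eq_mul]
        have e5 : n * n * ∑ T : Fin N → V, (if T i ∈ W ∧ D p (T i) (T j) ≤ 2 / k then (1:ℝ) else 0)
            ≤ n * n * (δ * n ^ N) := by
          rw [e1]
          calc n ^ N * ∑ u, ∑ v, (if u ∈ W ∧ D p u v ≤ 2 / k then (1:ℝ) else 0)
              ≤ n ^ N * (n * (δ * n)) := mul_le_mul_of_nonneg_left e3 (by positivity)
            _ = n * n * (δ * n ^ N) := by ring
        exact le_of_mul_le_mul_left e5 (by positivity)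
      · have e2 : ∑ T : Fin N → V,
            (if i ≠ j ∧ T i ∈ W ∧ D p (T i) (T j) ≤ 2 / k then (1:ℝ) else 0) = 0 := by
          apply Finset.sum_eq_zero
          intro T _
          rw [if_neg]
          rintro ⟨h, -⟩
          exact hij h
        rw [e2]
        positivity
    have e1 : ∑ T : Fin N → V, ∑ i, ∑ j,
        (if i ≠ j ∧ T i ∈ W ∧ D p (T i) (T j) ≤ 2 / k then (1:ℝ) else 0) ≤ N * (N * (δ * n ^ N)) := by
      rw [Finset.sum_comm]
      calc ∑ i, ∑ T : Fin N → V, ∑ j,
          (if i ≠ j ∧ T i ∈ W ∧ D p (T i) (T j) ≤ 2 / k then (1:ℝ) else 0)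
          ≤ ∑ i : Fin N, (N * (δ * n ^ N)) := by
            apply Finset.sum_le_sum
            intro i _
            rw [Finset.sum_comm]
            calc ∑ j, ∑ T : Fin N → V,
                (if i ≠ j ∧ T i ∈ W ∧ D p (T i) (T j) ≤ 2 / k then (1:ℝ) else 0)
                ≤ ∑ j : Fin N, δ * n ^ N := Finset.sum_le_sum (fun j _ => e0 i j)
              _ = N * (δ * n ^ N) := by
                rw [Finset.sum_const, Finset.card_univ, Fintype.card_fin, nsmul_eq_mul]
        _ = N * (N * (δ * n ^ N)) := by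
            rw [Finset.sum_const, Finset.card_univ, Fintype.card_fin, nsmul_eq_mul]
    simp_rw [Finset.sum_const, Finset.card_univ, Fintype.card_fun, Fintype.card_fin, nsmul_eq_mul]
    rw [← Finset.mul_sum]
    push_cast
    calc n ^ m * ∑ T : Fin N → V, ∑ i, ∑ j,
        (if i ≠ j ∧ T i ∈ W ∧ D p (T i) (T j) ≤ 2 / k then (1:ℝ) else 0)
        ≤ n ^ m * (N * (N * (δ * n ^ N))) := mul_le_mul_of_nonneg_left e1 (by positivity)
      _ = (N:ℝ) ^ 2 * δ * (n ^ N * n ^ m) := by ring
  have h2 : ∑ T : Fin N → V, ∑ Z : Fin m → V, (∑ i, ∑ j, (if dev T Z i j then (1:ℝ) else 0)) ≤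
      (N:ℝ) ^ 2 * ((k:ℝ) ^ 2 / m) * (n ^ N * n ^ m) := by
    have e0 : ∀ (T : Fin N → V) (i j : Fin N), ∑ Z : Fin m → V,
        (if dev T Z i j then (1:ℝ) else 0) ≤ (k:ℝ) ^ 2 / m * n ^ m := by
      intro T i j
      rw [Finset.sum_boole]
      have := dev_count (V := V) (fun z => |p (T i) z - p (T j) z|) (fun z => abs_nonneg _)
        (fun z => by
          rw [abs_le]
          constructor
          · linarith [hp0 (T i) z, hp1 (T j) z]
          · linarith [hp1 (T i) z, hp0 (T j) z]) m hm (1 / k) (by positivity)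
      refine this.trans (le_of_eq ?_)
      rw [← hn]
      field_simp
    have e1 : ∀ T : Fin N → V, ∑ Z : Fin m → V, (∑ i, ∑ j, (if dev T Z i j then (1:ℝ) else 0)) ≤
        N * (N * ((k:ℝ) ^ 2 / m * n ^ m)) := by
      intro T
      rw [Finset.sum_comm]
      calc ∑ i, ∑ Z : Fin m → V, ∑ j, (if dev T Z i j then (1:ℝ) else 0)
          ≤ ∑ i : Fin N, (N * ((k:ℝ) ^ 2 / m * n ^ m)) := by
            apply Finset.sum_le_sum
            intro i _
            rw [Finset.sum_comm]
            calc ∑ j, ∑ Z : Fin m → V, (if dev T Z i j then (1:ℝ) else 0)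
                ≤ ∑ j : Fin N, (k:ℝ) ^ 2 / m * n ^ m := Finset.sum_le_sum (fun j _ => e0 T i j)
              _ = N * ((k:ℝ) ^ 2 / m * n ^ m) := by
                rw [Finset.sum_const, Finset.card_univ, Fintype.card_fin, nsmul_eq_mul]
        _ = N * (N * ((k:ℝ) ^ 2 / m * n ^ m)) := by
            rw [Finset.sum_const, Finset.card_univ, Fintype.card_fin, nsmul_eq_mul]
    calc _ ≤ ∑ T : Fin N → V, (N * (N * ((k:ℝ) ^ 2 / m * n ^ m))) :=
          Finset.sum_le_sum (fun T _ => e1 T)
      _ = (N:ℝ) ^ 2 * ((k:ℝ) ^ 2 / m) * (n ^ N * n ^ m) := by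
          rw [Finset.sum_const, Finset.card_univ, Fintype.card_fun, Fintype.card_fin, nsmul_eq_mul]
          push_cast
          ring
  have h3 : ∑ T : Fin N → V, ∑ Z : Fin m → V,
      (if ¬ Rz d p (Sum.elim T Z) then (1:ℝ) else 0) ≤ τ * (n ^ N * n ^ m) := by
    have e1 : ∑ T : Fin N → V, ∑ Z : Fin m → V, (if ¬ Rz d p (Sum.elim T Z) then (1:ℝ) else 0) =
        ((univ.filter (fun s : (Fin N ⊕ Fin m) → V => ¬ Rz d p s)).card : ℝ) := by
      rw [← Finset.sum_boole, ← Fintype.sum_prod_type'
        (f := fun (T : Fin N → V) (Z : Fin m → V) => (if ¬ Rz d p (Sum.elim T Z) then (1:ℝ) else 0))]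
      exact Fintype.sum_equiv (Equiv.sumArrowEquivProdArrow (Fin N) (Fin m) V).symm _ _
        (fun _ => rfl)
    rw [e1]
    unfold Rare at hR
    rw [Fintype.card_sum, Fintype.card_fin, Fintype.card_fin, pow_add] at hR
    exact hR
  simp_rw [Finset.sum_add_distrib] at hsum
  rw [hL] at hsum
  have hlt : κ ^ N * (n ^ N * n ^ m) < (W.card : ℝ) ^ N * n ^ m := by
    rw [← mul_assoc, ← mul_pow]
    apply mul_lt_mul_of_pos_right _ (by positivity)
    exact pow_lt_pow_left₀ hc (by positivity) hNpos.ne'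
  have hpar' : ((N:ℝ) ^ 2 * δ + (N:ℝ) ^ 2 * ((k:ℝ) ^ 2 / m) + τ) * (n ^ N * n ^ m) ≤
      κ ^ N * (n ^ N * n ^ m) := mul_le_mul_of_nonneg_right hpar (by positivity)
  linarith

end Q146.BT
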