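import Pool.Agent.Q146.BT.Cluster

open Finset

namespace Q146.BT

section
variable {V : Type} [Fintype V] (p : V → V → ℝ)

lemma card_D [Nonempty V] (x y : V) : ∑ z, |p x z - p y z| = Fintype.card V * D p x y := by
  have hn0 : (0:ℝ) < Fintype.card V := by exact_mod_cast Fintype.card_pos
  unfold D
  field_simp

open Classical in
/-- the average over the two clusters -/
noncomputable def Mx (G : Finset V) (cl : V → V) (x y : V) : ℝ :=
  (∑ u ∈ G.filter (fun u => cl u = cl x), ∑ v ∈ G.filter (fun v => cl v = cl y),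
    |p x y - p u v|) / (((G.filter (fun u => cl u = cl x)).card : ℝ) *
      (G.filter (fun v => cl v = cl y)).card)

open Classical in
lemma Mx_sum [Nonempty V] (hadd : ∀ x y, p x y + p y x = 1) (G : Finset V) (cl : V → V) (ζ : ℝ)
    (hζ : 0 ≤ ζ) (hG : ∀ x ∈ G, D p x (cl x) ≤ ζ) :
    ∑ x ∈ G, ∑ y ∈ G, Mx p G cl x y ≤ 4 * ζ * (Fintype.card V : ℝ) ^ 2 := by
  set n : ℝ := (Fintype.card V : ℝ) with hn
  have hn0 : 0 < n := by rw [hn]; exact_mod_cast Fintype.card_pos
  set Cc : V → Finset V := fun x => G.filter (fun u => cl u = cl x) with hCc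
  have hpos : ∀ x ∈ G, (0:ℝ) < (Cc x).card := by
    intro x hx
    have : 0 < (Cc x).card := Finset.card_pos.2 ⟨x, by simp [hCc, hx]⟩
    exact_mod_cast this
  have hnear : ∀ x ∈ G, ∀ u ∈ Cc x, D p x u ≤ 2 * ζ := by
    intro x hx u hu
    simp only [hCc, Finset.mem_filter] at hu
    have h1 := D_tri p x (cl x) u
    have h2 := hG x hx
    have h3 := hG u hu.1
    rw [hu.2, D_symm] at h3
    linarith
  have hGn : (G.card : ℝ) ≤ n := by
    rw [hn, ← Finset.card_univ]
    exact_mod_cast Finset.card_le_card (Finset.subset_univ G)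
  have hM : ∀ x ∈ G, ∀ y ∈ G, Mx p G cl x y ≤ (∑ u ∈ Cc x, |p x y - p u y|) / (Cc x).card +
      (∑ u ∈ Cc x, (∑ v ∈ Cc y, |p u y - p u v|) / (Cc y).card) / (Cc x).card := by
    intro x hx y hy
    have hx0 := hpos x hx
    have hy0 := hpos y hy
    have e : Mx p G cl x y = (∑ u ∈ Cc x, ∑ v ∈ Cc y, |p x y - p u v|) /
      (((Cc x).card : ℝ) * (Cc y).card) := rfl
    rw [e, div_le_iff₀ (by positivity)]
    have h1 : ∑ u ∈ Cc x, ∑ v ∈ Cc y, |p x y - p u v| ≤
        ∑ u ∈ Cc x, ∑ v ∈ Cc y, (|p x y - p u y| + |p u y - p u v|) :=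
      Finset.sum_le_sum (fun u _ => Finset.sum_le_sum (fun v _ => abs_sub_le _ _ _))
    refine h1.trans (le_of_eq ?_)
    simp_rw [Finset.sum_add_distrib, Finset.sum_const, nsmul_eq_mul]
    rw [← Finset.mul_sum, ← Finset.sum_div]
    field_simp
    try ring
  have h1 : ∑ x ∈ G, ∑ y ∈ G, (∑ u ∈ Cc x, |p x y - p u y|) / (Cc x).card ≤ 2 * ζ * n ^ 2 := by
    calc ∑ x ∈ G, ∑ y ∈ G, (∑ u ∈ Cc x, |p x y - p u y|) / ((Cc x).card : ℝ)
        ≤ ∑ x ∈ G, n * (2 * ζ) := by
          apply Finset.sum_le_sum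
          intro x hx
          have hx0 := hpos x hx
          rw [← Finset.sum_div, div_le_iff₀ hx0, Finset.sum_comm]
          calc ∑ u ∈ Cc x, ∑ y ∈ G, |p x y - p u y| ≤ ∑ u ∈ Cc x, n * (2 * ζ) := by
                apply Finset.sum_le_sum
                intro u hu
                calc ∑ y ∈ G, |p x y - p u y| ≤ ∑ y, |p x y - p u y| :=
                      Finset.sum_le_sum_of_subset_of_nonneg (Finset.subset_univ _)
                        (fun _ _ _ => abs_nonneg _)
                  _ = n * D p x u := card_D p x u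
                  _ ≤ n * (2 * ζ) := mul_le_mul_of_nonneg_left (hnear x hx u hu) hn0.le
            _ = n * (2 * ζ) * (Cc x).card := by
                rw [Finset.sum_const, nsmul_eq_mul]; ring
      _ = G.card * (n * (2 * ζ)) := by rw [Finset.sum_const, nsmul_eq_mul]
      _ ≤ n * (n * (2 * ζ)) := mul_le_mul_of_nonneg_right hGn (by positivity)
      _ = 2 * ζ * n ^ 2 := by ring
  have h2 : ∑ x ∈ G, ∑ y ∈ G, (∑ u ∈ Cc x, (∑ v ∈ Cc y, |p u y - p u v|) / (Cc y).card) /
      (Cc x).card ≤ 2 * ζ * n ^ 2 := by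
    rw [Finset.sum_comm]
    calc ∑ y ∈ G, ∑ x ∈ G, (∑ u ∈ Cc x, (∑ v ∈ Cc y, |p u y - p u v|) / ((Cc y).card : ℝ)) /
        ((Cc x).card : ℝ)
        = ∑ y ∈ G, ∑ u ∈ G, (∑ v ∈ Cc y, |p u y - p u v|) / ((Cc y).card : ℝ) := by
          apply Finset.sum_congr rfl
          intro y _
          exact avg_lemma G cl (fun u => (∑ v ∈ Cc y, |p u y - p u v|) / ((Cc y).card : ℝ))
      _ ≤ ∑ y ∈ G, n * (2 * ζ) := by
          apply Finset.sum_le_sum
          intro y hy
          have hy0 := hpos y hy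
          rw [← Finset.sum_div, div_le_iff₀ hy0, Finset.sum_comm]
          calc ∑ v ∈ Cc y, ∑ u ∈ G, |p u y - p u v| ≤ ∑ v ∈ Cc y, n * (2 * ζ) := by
                apply Finset.sum_le_sum
                intro v hv
                have e : ∀ u, |p u y - p u v| = |p y u - p v u| := by
                  intro u
                  have e1 := hadd u y
                  have e2 := hadd u v
                  have e3 : p u y - p u v = -(p y u - p v u) := by linarith
                  rw [e3, abs_neg]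
                simp_rw [e]
                calc ∑ u ∈ G, |p y u - p v u| ≤ ∑ u, |p y u - p v u| :=
                      Finset.sum_le_sum_of_subset_of_nonneg (Finset.subset_univ _)
                        (fun _ _ _ => abs_nonneg _)
                  _ = n * D p y v := card_D p y v
                  _ ≤ n * (2 * ζ) := mul_le_mul_of_nonneg_left (hnear y hy v hv) hn0.le
            _ = n * (2 * ζ) * (Cc y).card := by
                rw [Finset.sum_const, nsmul_eq_mul]; ring
      _ = G.card * (n * (2 * ζ)) := by rw [Finset.sum_const, nsmul_eq_mul]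
      _ ≤ n * (n * (2 * ζ)) := mul_le_mul_of_nonneg_right hGn (by positivity)
      _ = 2 * ζ * n ^ 2 := by ring
  calc ∑ x ∈ G, ∑ y ∈ G, Mx p G cl x y
      ≤ ∑ x ∈ G, ∑ y ∈ G, ((∑ u ∈ Cc x, |p x y - p u y|) / ((Cc x).card : ℝ) +
        (∑ u ∈ Cc x, (∑ v ∈ Cc y, |p u y - p u v|) / ((Cc y).card : ℝ)) / ((Cc x).card : ℝ)) :=
        Finset.sum_le_sum (fun x hx => Finset.sum_le_sum (fun y hy => hM x hx y hy))
    _ ≤ 4 * ζ * n ^ 2 := by
        simp_rw [Finset.sum_add_distrib]
        linarith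

open Classical in
lemma half_le (hadd : ∀ x y, p x y + p y x = 1) (G : Finset V) (cl : V → V) (x y : V)
    (hx : x ∈ G) (hxy : cl x = cl y) : |p x y - 1 / 2| ≤ Mx p G cl x y := by
  unfold Mx
  rw [← hxy]
  set C := G.filter (fun u => cl u = cl x) with hC
  have hpos : (0:ℝ) < C.card := by
    have : 0 < C.card := Finset.card_pos.2 ⟨x, by simp [hC, hx]⟩
    exact_mod_cast this
  have h1 : ∑ u ∈ C, ∑ v ∈ C, p u v = (C.card : ℝ) * C.card / 2 := by
    have h2 : ∑ u ∈ C, ∑ v ∈ C, p u v + ∑ u ∈ C, ∑ v ∈ C, p u v = (C.card : ℝ) * C.card := by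
      conv_lhs => rw [Finset.sum_comm]; arg 2; rw [Finset.sum_comm]
      rw [Finset.sum_comm]
      conv_lhs => arg 1; rw [Finset.sum_comm]
      rw [← Finset.sum_add_distrib]
      simp_rw [← Finset.sum_add_distrib]
      have : ∀ u v : V, p v u + p u v = 1 := fun u v => hadd v u
      simp_rw [this]
      simp
    linarith
  rw [le_div_iff₀ (by positivity)]
  have h3 : |p x y - 1 / 2| * ((C.card : ℝ) * C.card) =
      |∑ u ∈ C, ∑ v ∈ C, (p x y - p u v)| := by
    have h4 : ∑ u ∈ C, ∑ v ∈ C, (p x y - p u v) = (p x y - 1 / 2) * ((C.card : ℝ) * C.card) := by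
      simp_rw [Finset.sum_sub_distrib]
      rw [h1]
      simp only [Finset.sum_const, nsmul_eq_mul]
      ring
    rw [h4, abs_mul, abs_of_pos (by positivity : (0:ℝ) < (C.card : ℝ) * C.card)]
  rw [h3]
  exact (Finset.abs_sum_le_sum_abs _ _).trans
    (Finset.sum_le_sum (fun u _ => Finset.abs_sum_le_sum_abs _ _))

end

end Q146.BT
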