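import Pool.Agent.Q146.BT.Fit

open Finset

namespace Q146.BT

open Classical in
theorem fit (d k q : ℕ) (hd : 0 < d) (hk : 0 < k) (δ κ τ : ℝ) (hδ : 0 < δ)
    (hκ0 : 0 ≤ κ) (hκ : κ < 1) (hq : 1 / δ ≤ q) (hτ : τ ≤ δ ^ q / 4) {V : Type} [Fintype V]
    [Nonempty V] (p : V → V → ℝ) (hp0 : ∀ x y, 0 ≤ p x y) (hp1 : ∀ x y, p x y ≤ 1)
    (hadd : ∀ x y, p x y + p y x = 1)
    (hD : ((univ.filter (fun x => ((univ.filter (fun y => D p x y ≤ 2 / k)).card : ℝ) <
      δ * Fintype.card V)).card : ℝ) ≤ κ * Fintype.card V)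
    (hR : Rare d p (Fin q) τ) :
    ∃ a : V → Fin d → ℝ, (∀ x c, 0 < a x c) ∧
      ∑ x, ∑ y, |p x y - F d (a x) (a y)| ≤ (32 / k + 2 * κ) * (Fintype.card V : ℝ) ^ 2 := by
  set n : ℝ := (Fintype.card V : ℝ) with hn
  have hn0 : 0 < n := by rw [hn]; exact_mod_cast Fintype.card_pos
  have hk0 : (0:ℝ) < k := by exact_mod_cast hk
  obtain ⟨X, cl, hcl, hXδ, hGc, hCi⟩ := structure_lemma p (2 / k) δ κ (by positivity) hδ hκ hD
  set G := univ.filter (fun x => D p x (cl x) ≤ 2 * (2 / k)) with hG
  have hXq : X.card ≤ q := by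
    have h1 : (X.card : ℝ) ≤ 1 / δ := by
      rw [le_div_iff₀ hδ]; exact hXδ
    exact_mod_cast h1.trans hq
  have hGX : ∀ x ∈ G, D p x (cl x) ≤ 4 / k := by
    intro x hx
    simp only [hG, Finset.mem_filter, Finset.mem_univ, true_and] at hx
    calc D p x (cl x) ≤ 2 * (2 / k) := hx
      _ = 4 / k := by ring
  have hMs := Mx_sum p hadd G cl (4 / k) (by positivity) hGX
  rw [← hn] at hMs
  have hRX : Rare d p X τ := hR.sub X (by rw [Fintype.card_coe]; exact hXq)
  unfold Rare at hRX
  rw [Fintype.card_coe, ← hn] at hRX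
  set C : X → Finset V := fun i => G.filter (fun x => cl x = i.1) with hC
  set Ω := Fintype.piFinset C with hΩ
  set cl' : V → X := fun x => ⟨cl x, hcl x⟩ with hcl'
  have hδ1 : δ ≤ 1 := by
    by_contra hc
    rw [not_le] at hc
    have hX1 : (X.card : ℝ) < 1 := by
      by_contra h2
      rw [not_lt] at h2
      nlinarith
    have hX0 : X.card = 0 := by
      have : X.card < 1 := by exact_mod_cast hX1
      omega
    have hne : X.Nonempty := ⟨_, hcl (Classical.arbitrary V)⟩
    rw [Finset.card_eq_zero] at hX0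
    rw [hX0] at hne
    exact absurd hne (by simp)
  have hΩc : δ ^ q * n ^ X.card ≤ (Ω.card : ℝ) := by
    rw [hΩ, Fintype.card_piFinset]
    push_cast
    calc δ ^ q * n ^ X.card ≤ δ ^ X.card * n ^ X.card := by
          apply mul_le_mul_of_nonneg_right _ (by positivity)
          exact pow_le_pow_of_le_one hδ.le hδ1 hXq
      _ = ∏ i : X, (δ * n) := by
          rw [Finset.prod_const, Finset.card_univ, Fintype.card_coe, mul_pow]
      _ ≤ ∏ i : X, ((C i).card : ℝ) := by
          apply Finset.prod_le_prod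
          · intro i _
            positivity
          · intro i _
            exact hCi i.1 i.2
  have hΩ0 : (0:ℝ) < Ω.card := lt_of_lt_of_le (by positivity) hΩc
  have hnr : ((Ω.filter (fun ω => ¬ Rz d p ω)).card : ℝ) ≤ Ω.card / 4 := by
    have h1 : (Ω.filter (fun ω => ¬ Rz d p ω)) ⊆ univ.filter (fun ω => ¬ Rz d p ω) :=
      Finset.filter_subset_filter _ (Finset.subset_univ _)
    have h2 : ((Ω.filter (fun ω => ¬ Rz d p ω)).card : ℝ) ≤ τ * n ^ X.card :=
      le_trans (by exact_mod_cast Finset.card_le_card h1) hRX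
    have h3 : τ * n ^ X.card ≤ δ ^ q / 4 * n ^ X.card :=
      mul_le_mul_of_nonneg_right hτ (by positivity)
    linarith
  have hrr : (3 / 4 : ℝ) * Ω.card ≤ ((Ω.filter (fun ω => Rz d p ω)).card : ℝ) := by
    have h1 := Finset.card_filter_add_card_filter_not (s := Ω) (fun ω => Rz d p ω)
    have h2 : ((Ω.filter (fun ω => Rz d p ω)).card : ℝ) +
      ((Ω.filter (fun ω => ¬ Rz d p ω)).card : ℝ) = Ω.card := by exact_mod_cast h1
    linarith
  set Err : (X → V) → ℝ := fun ω => ∑ x ∈ G, ∑ y ∈ G, |p x y - p (ω (cl' x)) (ω (cl' y))| with hErr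
  have hdiag : ∀ z, p z z = 1 / 2 := fun z => by linarith [hadd z z]
  have hpair : ∀ x ∈ G, ∀ y ∈ G, ∑ ω ∈ Ω, |p x y - p (ω (cl' x)) (ω (cl' y))| ≤
      Ω.card * Mx p G cl x y := by
    intro x hx y hy
    have hcx : (0:ℝ) < (C (cl' x)).card := by
      have : 0 < (C (cl' x)).card := Finset.card_pos.2 ⟨x, by simp [hC, hcl', hx]⟩
      exact_mod_cast this
    have hcy : (0:ℝ) < (C (cl' y)).card := by
      have : 0 < (C (cl' y)).card := Finset.card_pos.2 ⟨y, by simp [hC, hcl', hy]⟩
      exact_mod_cast this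
    by_cases hxy : cl' x = cl' y
    · have hxy' : cl x = cl y := congrArg Subtype.val hxy
      have h1 := half_le p hadd G cl x y hx hxy'
      calc ∑ ω ∈ Ω, |p x y - p (ω (cl' x)) (ω (cl' y))| = ∑ ω ∈ Ω, |p x y - 1 / 2| := by
            apply Finset.sum_congr rfl
            intro ω _
            rw [hxy, hdiag]
        _ = Ω.card * |p x y - 1 / 2| := by rw [Finset.sum_const, nsmul_eq_mul]
        _ ≤ Ω.card * Mx p G cl x y := mul_le_mul_of_nonneg_left h1 hΩ0.le
    · have h1 := sum_two C (cl' x) (cl' y) hxy (fun u v => |p x y - p u v|)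
      have h2 : Mx p G cl x y = (∑ u ∈ C (cl' x), ∑ v ∈ C (cl' y), |p x y - p u v|) /
        (((C (cl' x)).card : ℝ) * (C (cl' y)).card) := rfl
      rw [h2]
      apply le_of_eq
      rw [← mul_div_assoc, eq_div_iff (by positivity), mul_comm]
      exact h1
  have hsumErr : ∑ ω ∈ Ω, Err ω ≤ Ω.card * (16 / k * n ^ 2) := by
    simp only [hErr]
    rw [Finset.sum_comm]
    calc ∑ x ∈ G, ∑ ω ∈ Ω, ∑ y ∈ G, |p x y - p (ω (cl' x)) (ω (cl' y))|
        ≤ ∑ x ∈ G, ∑ y ∈ G, (Ω.card : ℝ) * Mx p G cl x y := by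
          apply Finset.sum_le_sum
          intro x hx
          rw [Finset.sum_comm]
          exact Finset.sum_le_sum (fun y hy => hpair x hx y hy)
      _ = Ω.card * ∑ x ∈ G, ∑ y ∈ G, Mx p G cl x y := by
          simp_rw [← Finset.mul_sum]
      _ ≤ Ω.card * (16 / k * n ^ 2) := by
          apply mul_le_mul_of_nonneg_left _ hΩ0.le
          refine hMs.trans (le_of_eq ?_)
          ring
  obtain ⟨ω, hωΩ, hωR, hωE⟩ : ∃ ω ∈ Ω, Rz d p ω ∧ Err ω ≤ 32 / k * n ^ 2 := by
    by_contra hc
    push Not at hc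
    have h1 : ((Ω.filter (fun ω => Rz d p ω)).card : ℝ) * (32 / k * n ^ 2) ≤ ∑ ω ∈ Ω, Err ω := by
      calc ((Ω.filter (fun ω => Rz d p ω)).card : ℝ) * (32 / k * n ^ 2)
          = ∑ ω ∈ Ω.filter (fun ω => Rz d p ω), (32 / k * n ^ 2) := by
            rw [Finset.sum_const, nsmul_eq_mul]
        _ ≤ ∑ ω ∈ Ω.filter (fun ω => Rz d p ω), Err ω := by
            apply Finset.sum_le_sum
            intro ω hω
            rw [Finset.mem_filter] at hω
            exact (hc ω hω.1 hω.2).le
        _ ≤ ∑ ω ∈ Ω, Err ω := by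
            apply Finset.sum_le_sum_of_subset_of_nonneg (Finset.filter_subset _ _)
            intro ω _ _
            exact Finset.sum_nonneg (fun x _ => Finset.sum_nonneg (fun y _ => abs_nonneg _))
    have h2 : (3 / 4 : ℝ) * Ω.card * (32 / k * n ^ 2) ≤
        ((Ω.filter (fun ω => Rz d p ω)).card : ℝ) * (32 / k * n ^ 2) :=
      mul_le_mul_of_nonneg_right hrr (by positivity)
    have h3 : (3 / 4 : ℝ) * Ω.card * (32 / k * n ^ 2) ≤ Ω.card * (16 / k * n ^ 2) :=
      h2.trans (h1.trans hsumErr)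
    have h4 : (0:ℝ) < Ω.card * (8 / k * n ^ 2) := by positivity
    have h5 : (3 / 4 : ℝ) * Ω.card * (32 / k * n ^ 2) = Ω.card * (16 / k * n ^ 2) +
      Ω.card * (8 / k * n ^ 2) := by ring
    linarith
  obtain ⟨a, ha, hpa⟩ := hωR
  refine ⟨fun x => a (cl' x), fun x c => ha _ c, ?_⟩
  have hterm : ∀ x y, |p x y - F d (a (cl' x)) (a (cl' y))| ≤
      (if x ∈ G ∧ y ∈ G then |p x y - p (ω (cl' x)) (ω (cl' y))| else 0) +
      ((if x ∉ G then (1:ℝ) else 0) + (if y ∉ G then (1:ℝ) else 0)) := by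
    intro x y
    have hle1 : |p x y - F d (a (cl' x)) (a (cl' y))| ≤ 1 := by
      have q1 := F_nonneg d (a (cl' x)) (a (cl' y)) (ha _) (ha _)
      have q2 := F_le_one d hd (a (cl' x)) (a (cl' y)) (ha _) (ha _)
      rw [abs_le]
      constructor
      · linarith [hp0 x y]
      · linarith [hp1 x y]
    by_cases hx : x ∈ G
    · by_cases hy : y ∈ G
      · simp [hx, hy, hpa]
      · simp [hx, hy, hle1]
    · by_cases hy : y ∈ G
      · simp [hx, hy, hle1]
      · simp only [hx, hy, false_and, if_false, not_false_eq_true, if_true]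
        linarith
  calc ∑ x, ∑ y, |p x y - F d (a (cl' x)) (a (cl' y))|
      ≤ ∑ x, ∑ y, ((if x ∈ G ∧ y ∈ G then |p x y - p (ω (cl' x)) (ω (cl' y))| else 0) +
        ((if x ∉ G then (1:ℝ) else 0) + (if y ∉ G then (1:ℝ) else 0))) :=
        Finset.sum_le_sum (fun x _ => Finset.sum_le_sum (fun y _ => hterm x y))
    _ = Err ω + (∑ x : V, ∑ y : V, (if x ∉ G then (1:ℝ) else 0) +
        ∑ x : V, ∑ y : V, (if y ∉ G then (1:ℝ) else 0)) := by
        simp_rw [Finset.sum_add_distrib]
        congr 1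
        simp only [hErr]
        rw [← Finset.sum_filter_add_sum_filter_not univ (fun x => x ∈ G)]
        have z1 : ∑ x ∈ univ.filter (fun x => x ∉ G), ∑ y,
            (if x ∈ G ∧ y ∈ G then |p x y - p (ω (cl' x)) (ω (cl' y))| else 0) = 0 := by
          apply Finset.sum_eq_zero
          intro x hx
          simp only [Finset.mem_filter, Finset.mem_univ, true_and] at hx
          apply Finset.sum_eq_zero
          intro y _
          simp [hx]
        rw [z1, add_zero]
        have z2 : univ.filter (fun x => x ∈ G) = G := by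
          ext x
          simp
        rw [z2]
        apply Finset.sum_congr rfl
        intro x hx
        simp only [hx, true_and]
        rw [← Finset.sum_filter, z2]
    _ ≤ 32 / k * n ^ 2 + (κ * n * n + κ * n * n) := by
        apply add_le_add hωE
        have z3 : ∑ x : V, (if x ∉ G then (1:ℝ) else 0) ≤ κ * n := by
          rw [Finset.sum_boole]
          refine le_trans (le_of_eq ?_) hGc
          congr 2
          ext x
          simp [hG]
        apply add_le_add
        · calc ∑ x : V, ∑ y : V, (if x ∉ G then (1:ℝ) else 0)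
              = (∑ x : V, (if x ∉ G then (1:ℝ) else 0)) * n := by
                rw [Finset.sum_mul]
                apply Finset.sum_congr rfl
                intro x _
                rw [Finset.sum_const, Finset.card_univ, nsmul_eq_mul, mul_comm]
            _ ≤ κ * n * n := mul_le_mul_of_nonneg_right z3 hn0.le
        · calc ∑ x : V, ∑ y : V, (if y ∉ G then (1:ℝ) else 0)
              = (∑ y : V, (if y ∉ G then (1:ℝ) else 0)) * n := by
                rw [Finset.sum_const, Finset.card_univ, nsmul_eq_mul, mul_comm]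
            _ ≤ κ * n * n := mul_le_mul_of_nonneg_right z3 hn0.le
    _ = (32 / k + 2 * κ) * n ^ 2 := by ring

end Q146.BT
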