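import Pool.Agent.Q146.BT.Sums

open Finset

namespace Q146.BT

/-- the average of `d` Bradley-Terry probabilities -/
noncomputable def F (d : ℕ) (a b : Fin d → ℝ) : ℝ := (1 / (d:ℝ)) * ∑ c, a c / (a c + b c)

lemma F_self (d : ℕ) (hd : 0 < d) (a : Fin d → ℝ) (ha : ∀ c, 0 < a c) : F d a a = 1 / 2 := by
  have h : ∀ c, a c / (a c + a c) = 1 / 2 := by
    intro c
    have := ha c
    field_simp
    ring
  have hd0 : (d:ℝ) ≠ 0 := by exact_mod_cast hd.ne'
  unfold F
  simp_rw [h]
  rw [Finset.sum_const, Finset.card_univ, Fintype.card_fin, nsmul_eq_mul]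
  field_simp

lemma F_add (d : ℕ) (hd : 0 < d) (a b : Fin d → ℝ) (ha : ∀ c, 0 < a c) (hb : ∀ c, 0 < b c) :
    F d a b + F d b a = 1 := by
  have h : ∀ c, a c / (a c + b c) + b c / (b c + a c) = 1 := by
    intro c
    have h1 := ha c
    have h2 := hb c
    rw [add_comm (b c) (a c), ← add_div]
    exact div_self (by positivity)
  have hd0 : (d:ℝ) ≠ 0 := by exact_mod_cast hd.ne'
  unfold F
  rw [← mul_add, ← Finset.sum_add_distrib]
  simp_rw [h]
  rw [Finset.sum_const, Finset.card_univ, Fintype.card_fin, nsmul_eq_mul]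
  field_simp

lemma F_nonneg (d : ℕ) (a b : Fin d → ℝ) (ha : ∀ c, 0 < a c) (hb : ∀ c, 0 < b c) :
    0 ≤ F d a b := by
  unfold F
  apply mul_nonneg (by positivity)
  apply Finset.sum_nonneg
  intro c _
  have h1 := ha c
  have h2 := hb c
  positivity

lemma F_le_one (d : ℕ) (hd : 0 < d) (a b : Fin d → ℝ) (ha : ∀ c, 0 < a c) (hb : ∀ c, 0 < b c) :
    F d a b ≤ 1 := by
  have h1 := F_add d hd a b ha hb
  have h2 := F_nonneg d b a hb ha
  linarith

/-- the tuple `s` of vertices is realised by positive parameters -/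
def Rz (d : ℕ) {V ι : Type} (p : V → V → ℝ) (s : ι → V) : Prop :=
  ∃ a : ι → Fin d → ℝ, (∀ i c, 0 < a i c) ∧ ∀ i j, p (s i) (s j) = F d (a i) (a j)

lemma Rz.comp {d : ℕ} {V ι κ : Type} {p : V → V → ℝ} {s : ι → V} (h : Rz d p s) (e : κ → ι) :
    Rz d p (s ∘ e) := by
  obtain ⟨a, h1, h2⟩ := h
  exact ⟨a ∘ e, fun i c => h1 _ c, fun i j => h2 _ _⟩

/-- among more than `k ^ d` rows of a realised matrix two are close in `L¹` -/
lemma rows (d k N m : ℕ) (hd : 0 < d) (hk : 0 < k) (hm : 0 < m) (hN : k ^ d < N) {V : Type}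
    (p : V → V → ℝ) (T : Fin N → V) (Z : Fin m → V) (h : Rz d p (Sum.elim T Z)) :
    ∃ i j, i ≠ j ∧ (∑ l, |p (T i) (Z l) - p (T j) (Z l)|) / m ≤ 1 / k := by
  obtain ⟨a, ha, hp⟩ := h
  have hk0 : (0:ℝ) < k := by exact_mod_cast hk
  have hm0 : (0:ℝ) < m := by exact_mod_cast hm
  have hd0 : (0:ℝ) < d := by exact_mod_cast hd
  set t : Fin d → Fin N → Fin m → ℝ := fun c i l =>
    a (Sum.inl i) c / (a (Sum.inl i) c + a (Sum.inr l) c) with ht
  have ht0 : ∀ c i l, 0 < t c i l := by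
    intro c i l
    have h1 := ha (Sum.inl i) c
    have h2 := ha (Sum.inr l) c
    simp only [ht]
    positivity
  have ht1 : ∀ c i l, t c i l < 1 := by
    intro c i l
    have h1 := ha (Sum.inl i) c
    have h2 := ha (Sum.inr l) c
    simp only [ht]
    rw [div_lt_one (by positivity)]
    linarith
  set Φ : Fin d → Fin N → ℝ := fun c i => (∑ l, t c i l) / m with hΦ
  have hne : (univ : Finset (Fin m)).Nonempty := ⟨⟨0, hm⟩, Finset.mem_univ _⟩
  have hΦ0 : ∀ c i, 0 ≤ Φ c i := fun c i =>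
    div_nonneg (Finset.sum_nonneg (fun l _ => (ht0 c i l).le)) hm0.le
  have hΦ1 : ∀ c i, Φ c i < 1 := by
    intro c i
    simp only [hΦ]
    rw [div_lt_one hm0]
    calc ∑ l, t c i l < ∑ l : Fin m, (1:ℝ) := Finset.sum_lt_sum_of_nonempty hne
          (fun l _ => ht1 c i l)
      _ = m := by simp
  have hfl : ∀ c i, ⌊(k:ℝ) * Φ c i⌋₊ < k := by
    intro c i
    rw [Nat.floor_lt (mul_nonneg hk0.le (hΦ0 c i))]
    calc (k:ℝ) * Φ c i < k * 1 := mul_lt_mul_of_pos_left (hΦ1 c i) hk0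
      _ = k := mul_one _
  obtain ⟨i, j, hij, hcode⟩ := Fintype.exists_ne_map_eq_of_card_lt
    (fun (i : Fin N) (c : Fin d) => (⟨⌊(k:ℝ) * Φ c i⌋₊, hfl c i⟩ : Fin k))
    (by rw [Fintype.card_fun, Fintype.card_fin, Fintype.card_fin, Fintype.card_fin]; exact hN)
  refine ⟨i, j, hij, ?_⟩
  have hΦd : ∀ c, |Φ c i - Φ c j| ≤ 1 / k := by
    intro c
    have h1 : ⌊(k:ℝ) * Φ c i⌋₊ = ⌊(k:ℝ) * Φ c j⌋₊ := by
      have := congrFun hcode c
      exact congrArg Fin.val this
    have a1 := Nat.floor_le (mul_nonneg hk0.le (hΦ0 c i))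
    have a2 := Nat.floor_le (mul_nonneg hk0.le (hΦ0 c j))
    have a3 := Nat.lt_floor_add_one ((k:ℝ) * Φ c i)
    have a4 := Nat.lt_floor_add_one ((k:ℝ) * Φ c j)
    rw [h1] at a1 a3
    rw [le_div_iff₀ hk0]
    rw [← abs_of_pos hk0, ← abs_mul, abs_le]
    constructor <;> nlinarith
  have hsum : ∀ c, ∑ l, |t c i l - t c j l| ≤ m / k := by
    intro c
    have h2 : ∑ l, |t c i l - t c j l| = m * |Φ c i - Φ c j| := by
      have h3 : (m:ℝ) * |Φ c i - Φ c j| = |∑ l, (t c i l - t c j l)| := by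
        rw [Finset.sum_sub_distrib, ← abs_of_pos hm0, ← abs_mul]
        congr 1
        simp only [hΦ]
        field_simp
      rw [h3]
      rcases le_total (a (Sum.inl i) c) (a (Sum.inl j) c) with hle | hle
      · have h4 : ∀ l, t c i l - t c j l ≤ 0 := by
          intro l
          have b1 := ha (Sum.inl i) c
          have b2 := ha (Sum.inl j) c
          have b3 := ha (Sum.inr l) c
          simp only [ht]
          rw [sub_nonpos, div_le_div_iff₀ (by positivity) (by positivity)]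
          nlinarith
        rw [abs_of_nonpos (Finset.sum_nonpos (fun l _ => h4 l)), ← Finset.sum_neg_distrib]
        exact Finset.sum_congr rfl (fun l _ => abs_of_nonpos (h4 l))
      · have h4 : ∀ l, 0 ≤ t c i l - t c j l := by
          intro l
          have b1 := ha (Sum.inl i) c
          have b2 := ha (Sum.inl j) c
          have b3 := ha (Sum.inr l) c
          simp only [ht]
          rw [sub_nonneg, div_le_div_iff₀ (by positivity) (by positivity)]
          nlinarith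
        rw [abs_of_nonneg (Finset.sum_nonneg (fun l _ => h4 l))]
        exact Finset.sum_congr rfl (fun l _ => abs_of_nonneg (h4 l))
    rw [h2]
    calc (m:ℝ) * |Φ c i - Φ c j| ≤ m * (1 / k) := mul_le_mul_of_nonneg_left (hΦd c) hm0.le
      _ = m / k := by ring
  have hmain : ∑ l, |p (T i) (Z l) - p (T j) (Z l)| ≤ m / k := by
    have h5 : ∀ l, |p (T i) (Z l) - p (T j) (Z l)| ≤ (1 / (d:ℝ)) * ∑ c, |t c i l - t c j l| := by
      intro l
      have e1 := hp (Sum.inl i) (Sum.inr l)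
      have e2 := hp (Sum.inl j) (Sum.inr l)
      simp only [Sum.elim_inl, Sum.elim_inr] at e1 e2
      rw [e1, e2, F, F, ← mul_sub, ← Finset.sum_sub_distrib, abs_mul, abs_of_nonneg (by positivity)]
      apply mul_le_mul_of_nonneg_left _ (by positivity)
      exact Finset.abs_sum_le_sum_abs _ _
    calc ∑ l, |p (T i) (Z l) - p (T j) (Z l)| ≤ ∑ l, (1 / (d:ℝ)) * ∑ c, |t c i l - t c j l| :=
          Finset.sum_le_sum (fun l _ => h5 l)
      _ = (1 / (d:ℝ)) * ∑ c, ∑ l, |t c i l - t c j l| := by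
          rw [← Finset.mul_sum, Finset.sum_comm]
      _ ≤ (1 / (d:ℝ)) * ∑ c : Fin d, (m:ℝ) / k := by
          apply mul_le_mul_of_nonneg_left _ (by positivity)
          exact Finset.sum_le_sum (fun c _ => hsum c)
      _ = m / k := by
          rw [Finset.sum_const, Finset.card_univ, Fintype.card_fin, nsmul_eq_mul]
          field_simp
  rw [div_le_iff₀ hm0]
  calc _ ≤ (m:ℝ) / k := hmain
    _ = 1 / k * m := by ring

end Q146.BT
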