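import Mathlib

open Finset

namespace Q146.BT

open Classical in
/-- two-coordinate marginal of the uniform distribution on a product of finite sets -/
lemma sum_two {ι V : Type} [Fintype ι] [DecidableEq ι] (C : ι → Finset V) (i j : ι) (hij : i ≠ j)
    (g : V → V → ℝ) :
    ((C i).card : ℝ) * (C j).card * ∑ ω ∈ Fintype.piFinset C, g (ω i) (ω j) =
      (Fintype.piFinset C).card * ∑ u ∈ C i, ∑ v ∈ C j, g u v := by
  have key : ∀ x ∈ C i, ∀ y ∈ C j, ((C i).card : ℝ) * (C j).card *
      (((Fintype.piFinset C).filter (fun ω => ω i = x ∧ ω j = y)).card : ℝ) =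
      (Fintype.piFinset C).card := by
    intro x hx y hy
    have e : (Fintype.piFinset C).filter (fun ω => ω i = x ∧ ω j = y) =
        Fintype.piFinset (fun l => if l = i then {x} else if l = j then {y} else C l) := by
      ext ω
      simp only [Finset.mem_filter, Fintype.mem_piFinset]
      constructor
      · rintro ⟨h1, h2, h3⟩ l
        by_cases hl : l = i
        · subst hl; simp [h2]
        · by_cases hl' : l = j
          · subst hl'; simp [hl, h3]
          · simp [hl, hl', h1 l]
      · intro h
        have hi : ω i = x := by simpa using h i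
        have hj : ω j = y := by
          have := h j
          simpa [hij.symm] using this
        refine ⟨fun l => ?_, hi, hj⟩
        by_cases hl : l = i
        · subst hl; rw [hi]; exact hx
        · by_cases hl' : l = j
          · subst hl'; rw [hj]; exact hy
          · have := h l
            simpa [hl, hl'] using this
    rw [e, Fintype.card_piFinset, Fintype.card_piFinset]
    push_cast
    rw [← Finset.mul_prod_erase univ (fun l => ((C l).card : ℝ)) (Finset.mem_univ i),
      ← Finset.mul_prod_erase (univ.erase i) (fun l => ((C l).card : ℝ))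
        (Finset.mem_erase.2 ⟨hij.symm, Finset.mem_univ j⟩),
      ← Finset.mul_prod_erase univ (fun l => (((if l = i then {x} else if l = j then {y} else C l :
        Finset V)).card : ℝ)) (Finset.mem_univ i),
      ← Finset.mul_prod_erase (univ.erase i) (fun l => (((if l = i then {x} else if l = j then {y}
        else C l : Finset V)).card : ℝ)) (Finset.mem_erase.2 ⟨hij.symm, Finset.mem_univ j⟩)]
    have e2 : ∏ l ∈ (univ.erase i).erase j, (((if l = i then {x} else if l = j then {y}
        else C l : Finset V)).card : ℝ) = ∏ l ∈ (univ.erase i).erase j, ((C l).card : ℝ) := by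
      apply Finset.prod_congr rfl
      intro l hl
      simp only [Finset.mem_erase, Finset.mem_univ, and_true] at hl
      rw [if_neg hl.2, if_neg hl.1]
    rw [e2]
    simp [hij.symm]
    ring
  have h1 : ∑ ω ∈ Fintype.piFinset C, g (ω i) (ω j) =
      ∑ x ∈ C i, ∑ y ∈ C j,
        (((Fintype.piFinset C).filter (fun ω => ω i = x ∧ ω j = y)).card : ℝ) * g x y := by
    have h2 : ∀ ω ∈ Fintype.piFinset C, g (ω i) (ω j) =
        ∑ x ∈ C i, ∑ y ∈ C j, (if ω i = x ∧ ω j = y then g x y else 0) := by
      intro ω hω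
      rw [Fintype.mem_piFinset] at hω
      rw [Finset.sum_eq_single (ω i), Finset.sum_eq_single (ω j)]
      · simp
      · intro y _ hy
        rw [if_neg]
        rintro ⟨-, h⟩
        exact hy h.symm
      · intro h
        exact absurd (hω j) h
      · intro x _ hx
        apply Finset.sum_eq_zero
        intro y _
        rw [if_neg]
        rintro ⟨h, -⟩
        exact hx h.symm
      · intro h
        exact absurd (hω i) h
    rw [Finset.sum_congr rfl h2, Finset.sum_comm]
    apply Finset.sum_congr rfl
    intro x _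
    rw [Finset.sum_comm]
    apply Finset.sum_congr rfl
    intro y _
    rw [← Finset.sum_filter, Finset.sum_const, nsmul_eq_mul]
  rw [h1, Finset.mul_sum, Finset.mul_sum]
  apply Finset.sum_congr rfl
  intro x hx
  rw [Finset.mul_sum, Finset.mul_sum]
  apply Finset.sum_congr rfl
  intro y hy
  rw [← mul_assoc, key x hx y hy]

/-- the two coordinate marginal for the uniform distribution on all functions -/
lemma sum_two_univ {ι V : Type} [Fintype ι] [Fintype V] [DecidableEq ι] (i j : ι) (hij : i ≠ j)
    (g : V → V → ℝ) :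
    (Fintype.card V : ℝ) * Fintype.card V * ∑ ω : ι → V, g (ω i) (ω j) =
      (Fintype.card V : ℝ) ^ Fintype.card ι * ∑ u, ∑ v, g u v := by
  have h := sum_two (fun _ : ι => (univ : Finset V)) i j hij g
  rw [Fintype.card_piFinset] at h
  simp only [Finset.card_univ, Finset.prod_const] at h
  have e : Fintype.piFinset (fun _ : ι => (univ : Finset V)) = univ := by
    ext ω
    simp
  rw [e] at h
  push_cast at h
  exact h

/-- second moment bound -/
lemma cheb {V : Type} [Fintype V] [Nonempty V] (h : V → ℝ) (hb : ∀ v, |h v| ≤ 1)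
    (h0 : ∑ v, h v = 0) (m : ℕ) :
    ∑ Z : Fin m → V, (∑ j, h (Z j)) ^ 2 ≤ m * (Fintype.card V : ℝ) ^ m := by
  have hn : (0:ℝ) < Fintype.card V := by exact_mod_cast Fintype.card_pos
  have h1 : ∀ Z : Fin m → V, (∑ j, h (Z j)) ^ 2 = ∑ j, ∑ j', h (Z j) * h (Z j') := by
    intro Z
    rw [sq, Finset.sum_mul_sum]
  simp_rw [h1]
  rw [Finset.sum_comm]
  have h2 : ∀ j : Fin m, ∑ Z : Fin m → V, ∑ j', h (Z j) * h (Z j') ≤
      (Fintype.card V : ℝ) ^ m := by
    intro j
    rw [Finset.sum_comm, Finset.sum_eq_single j]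
    · have : ∑ Z : Fin m → V, h (Z j) * h (Z j) ≤ ∑ Z : Fin m → V, (1:ℝ) := by
        apply Finset.sum_le_sum
        intro Z _
        have := hb (Z j)
        rw [← sq, ← sq_abs]
        have h3 := abs_nonneg (h (Z j))
        nlinarith
      refine this.trans ?_
      rw [Finset.sum_const, Finset.card_univ, Fintype.card_fun, Fintype.card_fin]
      simp
    · intro j' _ hj'
      have h3 := sum_two_univ (V := V) j j' (Ne.symm hj') (fun u v => h u * h v)
      have h4 : ∑ u, ∑ v, h u * h v = 0 := by
        rw [← Finset.sum_mul_sum, h0, zero_mul]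
      rw [h4, mul_zero] at h3
      rcases mul_eq_zero.1 h3 with h5 | h5
      · exact absurd h5 (mul_pos hn hn).ne'
      · exact h5
    · intro hj
      exact absurd (Finset.mem_univ j) hj
  refine (Finset.sum_le_sum (fun j _ => h2 j)).trans ?_
  rw [Finset.sum_const, Finset.card_univ, Fintype.card_fin, nsmul_eq_mul]

open Classical in
/-- law of large numbers, counting form -/
lemma dev_count {V : Type} [Fintype V] [Nonempty V] (h : V → ℝ) (hb0 : ∀ v, 0 ≤ h v)
    (hb1 : ∀ v, h v ≤ 1) (m : ℕ) (hm : 0 < m) (c : ℝ) (hc : 0 < c) :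
    ((univ.filter (fun Z : Fin m → V =>
      c ≤ |(∑ j, h (Z j)) / m - (∑ v, h v) / Fintype.card V|)).card : ℝ) ≤
      (Fintype.card V : ℝ) ^ m / (m * c ^ 2) := by
  have hn : (0:ℝ) < Fintype.card V := by exact_mod_cast Fintype.card_pos
  have hm0 : (0:ℝ) < m := by exact_mod_cast hm
  set μ := (∑ v, h v) / Fintype.card V with hμ
  have hμ0 : 0 ≤ μ := div_nonneg (Finset.sum_nonneg (fun v _ => hb0 v)) hn.le
  have hμ1 : μ ≤ 1 := by
    rw [hμ, div_le_one hn]
    calc ∑ v, h v ≤ ∑ v : V, (1:ℝ) := Finset.sum_le_sum (fun v _ => hb1 v)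
      _ = Fintype.card V := by simp
  have h1 := cheb (fun v => h v - μ) (fun v => by
    rw [abs_le]
    constructor
    · linarith [hb0 v]
    · linarith [hb1 v]) (by
      rw [Finset.sum_sub_distrib, Finset.sum_const, Finset.card_univ, nsmul_eq_mul, hμ]
      field_simp
      ring) m
  have h2 : ∀ Z : Fin m → V, ∑ j, (h (Z j) - μ) = m * ((∑ j, h (Z j)) / m - μ) := by
    intro Z
    rw [Finset.sum_sub_distrib, Finset.sum_const, Finset.card_univ, Fintype.card_fin, nsmul_eq_mul]
    field_simp
  have h3 : ((univ.filter (fun Z : Fin m → V => c ≤ |(∑ j, h (Z j)) / m - μ|)).card : ℝ) *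
      (m * c) ^ 2 ≤ ∑ Z : Fin m → V, (∑ j, (h (Z j) - μ)) ^ 2 := by
    rw [← Finset.sum_boole, Finset.sum_mul]
    apply Finset.sum_le_sum
    intro Z _
    split_ifs with hZ
    · rw [h2 Z, one_mul, mul_pow, mul_pow]
      apply mul_le_mul_of_nonneg_left _ (by positivity)
      rw [← sq_abs ((∑ j, h (Z j)) / m - μ)]
      exact pow_le_pow_left₀ hc.le hZ 2
    · rw [zero_mul]
      positivity
  rw [le_div_iff₀ (by positivity)]
  have h4 := h3.trans h1
  have h5 : ((univ.filter (fun Z : Fin m → V => c ≤ |(∑ j, h (Z j)) / m - μ|)).card : ℝ) *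
      (m * c) ^ 2 = m * (((univ.filter (fun Z : Fin m → V =>
        c ≤ |(∑ j, h (Z j)) / m - μ|)).card : ℝ) * (m * c ^ 2)) := by ring
  rw [h5] at h4
  exact le_of_mul_le_mul_left h4 hm0

end Q146.BT
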